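import Mathlib
import Pool.Graph.R_seed8.S08658

set_option autoImplicit false
open ComplexConjugate

namespace KS6_98.CHyp
open Pool.Agent.S08658

/-- the entries attached to a configuration -/
noncomputable def FF (ε : ℝ) (p : (Fin 5 → ℂ) × (Fin 5 → ℂ)) (i j : Fin 5) : ℝ :=
  fE ε (p.1 j - p.1 i) (p.2 j - p.2 i)

theorem FF_odd (ε : ℝ) (p : (Fin 5 → ℂ) × (Fin 5 → ℂ)) (i j : Fin 5) :
    FF ε p j i = -FF ε p i j := by
  unfold FF
  rw [← fE_odd]
  congr 1 <;> ring

theorem continuous_FF (ε : ℝ) (i j : Fin 5) :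
    Continuous (fun p : (Fin 5 → ℂ) × (Fin 5 → ℂ) => FF ε p i j) := by
  have h1 : ∀ i : Fin 5, Continuous (fun p : (Fin 5 → ℂ) × (Fin 5 → ℂ) => p.1 i) :=
    fun i => (continuous_apply i).comp continuous_fst
  have h2 : ∀ i : Fin 5, Continuous (fun p : (Fin 5 → ℂ) × (Fin 5 → ℂ) => p.2 i) :=
    fun i => (continuous_apply i).comp continuous_snd
  have hz : Continuous (fun p : (Fin 5 → ℂ) × (Fin 5 → ℂ) => p.1 j - p.1 i) :=
    (h1 j).sub (h1 i)
  have hw : Continuous (fun p : (Fin 5 → ℂ) × (Fin 5 → ℂ) => p.2 j - p.2 i) :=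
    (h2 j).sub (h2 i)
  unfold FF fE
  have h3 : Continuous (fun p : (Fin 5 → ℂ) × (Fin 5 → ℂ) =>
      (p.1 j - p.1 i) ^ 2 * conj (p.2 j - p.2 i)) :=
    (hz.pow 2).mul (Complex.continuous_conj.comp hw)
  exact (Complex.continuous_re.comp h3).add
    ((continuous_const.mul (Complex.continuous_normSq.comp hz)).mul
      (Complex.continuous_im.comp h3))

/-- a uniform obstruction -/
theorem uniform : ∃ ε δ : ℝ, 0 < ε ∧ 0 < δ ∧ ∀ (x y : Fin 5 → ℂ), Gram x y →
    ∃ i j k : Fin 5, 6 * δ < |FF ε (x, y) i j + FF ε (x, y) j k + FF ε (x, y) k i| := by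
  obtain ⟨ε, hε, hmain⟩ := exists_eps
  let Ψ : (Fin 5 → ℂ) × (Fin 5 → ℂ) → ℝ := fun p =>
    ∑ i, ∑ j, ∑ k, |FF ε p i j + FF ε p j k + FF ε p k i|
  have hΨc : Continuous Ψ := by
    refine continuous_finsetSum _ (fun i _ => continuous_finsetSum _ (fun j _ =>
      continuous_finsetSum _ (fun k _ => ?_)))
    exact (((continuous_FF ε i j).add (continuous_FF ε j k)).add (continuous_FF ε k i)).abs
  have hΨpos : ∀ p ∈ {p : (Fin 5 → ℂ) × (Fin 5 → ℂ) | Gram p.1 p.2}, 0 < Ψ p := by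
    rintro ⟨x, y⟩ hG
    have hnn : 0 ≤ Ψ (x, y) := Finset.sum_nonneg fun i _ => Finset.sum_nonneg fun j _ =>
      Finset.sum_nonneg fun k _ => abs_nonneg _
    rcases hnn.lt_or_eq with h | h
    · exact h
    · exfalso
      have hz : ∀ i j k, FF ε (x, y) i j + FF ε (x, y) j k + FF ε (x, y) k i = 0 := by
        intro i j k
        have h1 := (Finset.sum_eq_zero_iff_of_nonneg (fun i _ => Finset.sum_nonneg fun j _ =>
          Finset.sum_nonneg fun k _ => abs_nonneg _)).1 h.symm i (Finset.mem_univ i)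
        have h2 := (Finset.sum_eq_zero_iff_of_nonneg (fun j _ =>
          Finset.sum_nonneg fun k _ => abs_nonneg _)).1 h1 j (Finset.mem_univ j)
        have h3 := (Finset.sum_eq_zero_iff_of_nonneg (fun k _ => abs_nonneg _)).1 h2 k
          (Finset.mem_univ k)
        exact abs_eq_zero.1 h3
      refine hmain x y (fun j => FF ε (x, y) 0 j) hG ?_
      intro i j
      have h1 := hz i j 0
      have h2 := FF_odd ε (x, y) 0 j
      change FF ε (x, y) i j = _
      linarith
  obtain ⟨δ, hδ0, hδ⟩ := isCompact_gram.exists_forall_le' hΨc.continuousOn hΨpos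
  refine ⟨ε, δ / 1000, hε, by positivity, ?_⟩
  intro x y hG
  by_contra hcon
  push Not at hcon
  have h1 := hδ (x, y) hG
  have h2 : Ψ (x, y) ≤ ∑ _i : Fin 5, ∑ _j : Fin 5, ∑ _k : Fin 5, 6 * (δ / 1000) :=
    Finset.sum_le_sum fun i _ => Finset.sum_le_sum fun j _ => Finset.sum_le_sum fun k _ =>
      hcon i j k
  simp only [Finset.sum_const, Finset.card_univ, Fintype.card_fin, nsmul_eq_mul] at h2
  push_cast at h2
  linarith

/-- the odd polynomial -/
noncomputable def f4 (ε : ℝ) (u : EuclideanSpace ℝ (Fin 4)) : ℝ :=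
  (u 0 ^ 2 - u 1 ^ 2) * u 2 + 2 * u 0 * u 1 * u 3 +
    ε * (u 0 ^ 2 + u 1 ^ 2) * (2 * u 0 * u 1 * u 2 - (u 0 ^ 2 - u 1 ^ 2) * u 3)

theorem f4_eq (ε : ℝ) (u : EuclideanSpace ℝ (Fin 4)) : f4 ε u = fE ε (zc u) (wc u) := by
  unfold f4 fE zc wc
  simp only [pow_two, Complex.mul_re, Complex.mul_im, Complex.conj_re, Complex.conj_im,
    Complex.normSq_apply]
  ring

theorem robust : ∃ ε δ : ℝ, 0 < ε ∧ 0 < δ ∧
    ∀ g : EuclideanSpace ℝ (Fin 4) → ℝ, (∀ u, ‖u‖ = 1 → |g u - f4 ε u| ≤ δ) →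
    ∀ v : Fin 5 → EuclideanSpace ℝ (Fin 4), (∀ i j, i ≠ j → dist (v i) (v j) = 1) →
    ∀ x : EuclideanSpace ℝ (Fin 4), ∃ i j : Fin 5, i < j ∧
      δ < |inner ℝ x (v j - v i) - g (v j - v i)| := by
  obtain ⟨ε, δ, hε, hδ, hu⟩ := uniform
  refine ⟨ε, δ, hε, hδ, ?_⟩
  intro g hg v hv x
  by_contra hcon
  push Not at hcon
  set c : EuclideanSpace ℝ (Fin 4) := (1 / 5 : ℝ) • ∑ i, v i with hc
  set p : Fin 5 → EuclideanSpace ℝ (Fin 4) := fun i => v i - c with hp
  have hpd : ∀ i j, p j - p i = v j - v i := by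
    intro i j
    simp only [hp]
    abel
  have hs : ∑ i, p i = 0 := by
    simp only [hp, Finset.sum_sub_distrib, Finset.sum_const, Finset.card_univ, Fintype.card_fin,
      hc]
    rw [← Nat.cast_smul_eq_nsmul ℝ, smul_smul]
    norm_num
  have hd : ∀ i j, i ≠ j → ‖p j - p i‖ = 1 := by
    intro i j hij
    rw [hpd, ← dist_eq_norm, hv j i hij.symm]
  obtain ⟨i, j, k, hijk⟩ := hu _ _ (gram_of_dist p hs hd)
  set F := FF ε (fun i => zc (p i), fun i => wc (p i)) with hF
  have hFe : ∀ a b, F a b = f4 ε (v b - v a) := by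
    intro a b
    rw [hF, FF, ← zc_sub, ← wc_sub, hpd, ← f4_eq]
  have hFo : ∀ a b, F b a = -F a b := fun a b => FF_odd _ _ _ _
  have hlt : ∀ a b, a < b → |inner ℝ x (v b - v a) - F a b| ≤ 2 * δ := by
    intro a b hab
    have h1 := hcon a b hab
    have h2 := hg (v b - v a) (by rw [← dist_eq_norm, hv b a hab.ne'])
    rw [hFe]
    have h3 : inner ℝ x (v b - v a) - f4 ε (v b - v a) =
        (inner ℝ x (v b - v a) - g (v b - v a)) + (g (v b - v a) - f4 ε (v b - v a)) := by ring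
    rw [h3]
    exact (abs_add_le _ _).trans (by linarith)
  have hall : ∀ a b, |inner ℝ x (v b - v a) - F a b| ≤ 2 * δ := by
    intro a b
    rcases lt_trichotomy a b with h | h | h
    · exact hlt a b h
    · subst h
      have h1 := hFo a a
      have h2 : F a a = 0 := by linarith
      rw [h2, sub_self, inner_zero_right, sub_zero, abs_zero]
      positivity
    · have h1 := hlt b a h
      have h2 : inner ℝ x (v b - v a) - F a b = -(inner ℝ x (v a - v b) - F b a) := by
        rw [hFo a b, ← neg_sub (v a) (v b), inner_neg_right]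
        ring
      rw [h2, abs_neg]
      exact h1
  have e : F i j + F j k + F k i = -((inner ℝ x (v j - v i) - F i j) +
      (inner ℝ x (v k - v j) - F j k) + (inner ℝ x (v i - v k) - F k i)) := by
    have h0 : inner ℝ x (v j - v i) + inner ℝ x (v k - v j) + inner ℝ x (v i - v k) = (0 : ℝ) := by
      rw [← inner_add_right, ← inner_add_right]
      have : v j - v i + (v k - v j) + (v i - v k) = 0 := by abel
      rw [this, inner_zero_right]
    linarith
  rw [e, abs_neg] at hijk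
  have h1 := abs_add_le ((inner ℝ x (v j - v i) - F i j) + (inner ℝ x (v k - v j) - F j k))
    (inner ℝ x (v i - v k) - F k i)
  have h2 := abs_add_le (inner ℝ x (v j - v i) - F i j) (inner ℝ x (v k - v j) - F j k)
  have h3 := hall i j
  have h4 := hall j k
  have h5 := hall k i
  linarith

end KS6_98.CHyp
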